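import Pool.Agent.Lib.MP_524519_ag.DU5.Top

/-! # RES: chains at one arc -/

set_option autoImplicit false
set_option linter.unusedSectionVars false

namespace Pool.Agent.DU5.RES

open MvPowerSeries

variable {k K : Type} [Field k] [Field K] [Algebra k K]

theorem ev_X {x : Fin 3 → PowerSeries K} (hx : ∀ i, PowerSeries.constantCoeff (x i) = 0)
    (i : Fin 3) : ev x (X i : O k 3) = x i := by
  unfold ev; exact subst_X (hs hx) i

theorem ev_sub {x : Fin 3 → PowerSeries K} (hx : ∀ i, PowerSeries.constantCoeff (x i) = 0)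
    (a b : O k 3) : ev x (a - b) = ev x a - ev x b := by
  unfold ev; rw [← coe_substAlgHom (hs hx)]; exact map_sub _ _ _

/-- Every coordinate is divisible by `u^(vm x)`. -/
theorem X_pow_vm_dvd (x : Fin 3 → PowerSeries K) (i : Fin 3) :
    PowerSeries.X ^ vm x ∣ x i := by
  rw [PowerSeries.X_pow_dvd_iff]
  intro m hm
  by_contra h
  have : vm x ≤ m := Nat.sInf_le ⟨i, h⟩
  omega

theorem vm_spec {x : Fin 3 → PowerSeries K} (hx : x ≠ 0) :
    ∃ i, PowerSeries.coeff (vm x) (x i) ≠ 0 := by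
  have hne : {m : ℕ | ∃ i, PowerSeries.coeff m (x i) ≠ 0}.Nonempty := by
    by_contra h
    rw [Set.not_nonempty_iff_eq_empty] at h
    apply hx
    funext i
    ext m
    by_contra hm
    have : m ∈ {m : ℕ | ∃ i, PowerSeries.coeff m (x i) ≠ 0} := ⟨i, hm⟩
    rw [h] at this
    exact this
  exact Nat.sInf_mem hne

/-- The coefficient of `u^(d v)` of `f(x)`. -/
theorem coeff_ev {d : ℕ} {f : O k 3} (hf : R3 d f) {x : Fin 3 → PowerSeries K}
    (hx : ∀ i, PowerSeries.constantCoeff (x i) = 0) {v : ℕ} (hv : 0 < v)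
    (h0 : PowerSeries.X ^ v ∣ x 0) (h1 : PowerSeries.X ^ (v + 1) ∣ x 1)
    (h2 : PowerSeries.X ^ (v + 1) ∣ x 2) :
    PowerSeries.coeff (d * v) (ev x f) =
      algebraMap k K (coeff (Finsupp.single 0 d) f) * (PowerSeries.coeff v (x 0)) ^ d := by
  unfold ev
  have hss := hs hx
  have hcs : PowerSeries.coeff (d * v) (MvPowerSeries.subst x f) =
      finsum (fun e : Fin 3 →₀ ℕ => coeff e f • PowerSeries.coeff (d * v)
        (e.prod fun s m => x s ^ m)) := by
    have := MvPowerSeries.coeff_subst hss f (Finsupp.single () (d * v))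
    exact this
  rw [hcs, finsum_eq_single _ (Finsupp.single (0 : Fin 3) d)]
  · rw [Finsupp.prod_single_index (by simp), Algebra.smul_def]
    congr 1
    obtain ⟨y, hy⟩ := h0
    rw [hy, mul_pow, ← pow_mul, mul_comm v d, PowerSeries.coeff_X_pow_mul',
      PowerSeries.coeff_X_pow_mul', if_pos le_rfl, if_pos le_rfl]
    simp
  · intro e he
    by_cases hlow : e 0 + e 1 + e 2 < d
    · rw [hf.low e hlow, zero_smul]
    · have hdvd : PowerSeries.X ^ (d * v + 1) ∣ (e.prod fun s m => x s ^ m) := by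
        rw [Finsupp.prod_fintype _ _ (by simp), Fin.prod_univ_three]
        have hpow : (PowerSeries.X : PowerSeries K) ^ (v * e 0 + (v + 1) * e 1 + (v + 1) * e 2) ∣
            x 0 ^ e 0 * x 1 ^ e 1 * x 2 ^ e 2 := by
          rw [pow_add, pow_add, pow_mul, pow_mul, pow_mul]
          exact mul_dvd_mul (mul_dvd_mul (pow_dvd_pow_of_dvd h0 _) (pow_dvd_pow_of_dvd h1 _))
            (pow_dvd_pow_of_dvd h2 _)
        refine (pow_dvd_pow _ ?_).trans hpow
        push Not at hlow
        have hexp : v * e 0 + (v + 1) * e 1 + (v + 1) * e 2 =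
            v * (e 0 + e 1 + e 2) + (e 1 + e 2) := by ring
        rw [hexp]
        rcases Nat.lt_or_ge d (e 0 + e 1 + e 2) with hlt | hge
        · have : d * v + v ≤ v * (e 0 + e 1 + e 2) := by nlinarith
          omega
        · have hd : e 0 + e 1 + e 2 = d := le_antisymm hge hlow
          have h12 : e 1 + e 2 ≠ 0 := by
            intro h12
            apply he
            ext i
            fin_cases i
            · simp; omega
            · simp; omega
            · simp; omega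
          rw [hd, mul_comm v d]
          omega
      rw [PowerSeries.X_pow_dvd_iff] at hdvd
      rw [hdvd (d * v) (Nat.lt_succ_self _), smul_zero]

/-- The order of `x_1` or of `x_2` is `vm x`. -/
theorem coeff_ne {d : ℕ} {f : O k 3} (hf : R3 d f) {x : Fin 3 → PowerSeries K}
    (hx : ∀ i, PowerSeries.constantCoeff (x i) = 0) (hx0 : x ≠ 0) (hxf : ev x f = 0) :
    PowerSeries.coeff (vm x) (x 1) ≠ 0 ∨ PowerSeries.coeff (vm x) (x 2) ≠ 0 := by
  by_contra hcon
  push Not at hcon
  obtain ⟨c1, c2⟩ := hcon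
  obtain ⟨i, hi⟩ := vm_spec hx0
  have hv : 0 < vm x := by
    rcases Nat.eq_zero_or_pos (vm x) with h | h
    · rw [h, PowerSeries.coeff_zero_eq_constantCoeff_apply] at hi
      exact absurd (hx i) hi
    · exact h
  have hup : ∀ i, PowerSeries.coeff (vm x) (x i) = 0 → PowerSeries.X ^ (vm x + 1) ∣ x i := by
    intro i hi
    rw [PowerSeries.X_pow_dvd_iff]
    intro m hm
    rcases Nat.lt_or_ge m (vm x) with h | h
    · exact PowerSeries.X_pow_dvd_iff.1 (X_pow_vm_dvd x i) m h
    · have : m = vm x := by omega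
      rw [this, hi]
  have hc := coeff_ev hf hx hv (X_pow_vm_dvd x 0) (hup 1 c1) (hup 2 c2)
  rw [hxf, map_zero] at hc
  have hi0 : PowerSeries.coeff (vm x) (x 0) ≠ 0 := by
    fin_cases i
    · exact hi
    · exact absurd c1 hi
    · exact absurd c2 hi
  have := hc.symm
  rw [mul_eq_zero] at this
  rcases this with h | h
  · exact hf.top ((map_eq_zero (algebraMap k K)).1 h)
  · exact pow_ne_zero d hi0 h

/-- Division by a coordinate of minimal order. -/
theorem ordGe_div {s : ℕ} {f h : O k 3} {D : Derivation k K K} {x : Fin 3 → PowerSeries K}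
    (hx : ∀ i, PowerSeries.constantCoeff (x i) = 0) (i : Fin 3)
    (hi : PowerSeries.coeff (vm x) (x i) ≠ 0) (H : OrdGe (s + vm x) f (X i * h) D x) :
    OrdGe s f h D x := by
  obtain ⟨g, hg⟩ := H
  obtain ⟨y, hy⟩ := X_pow_vm_dvd x i
  have hyu : IsUnit y := by
    rw [PowerSeries.isUnit_iff_constantCoeff]
    rw [hy, PowerSeries.coeff_X_pow_mul', if_pos le_rfl] at hi
    simpa using hi
  obtain ⟨y', hy'⟩ := hyu.exists_left_inv
  refine ⟨y' * g, fun l => ?_⟩
  have h1 := hg l
  rw [ev_mul hx, ev_X hx, pow_add] at h1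
  have h2 : (PowerSeries.X : PowerSeries K) ^ vm x *
      (PowerSeries.X ^ s * g * ev x (pderiv k l f)) =
      PowerSeries.X ^ vm x * (y * (ev x h * jm D x l)) := by
    calc _ = PowerSeries.X ^ s * PowerSeries.X ^ vm x * g * ev x (pderiv k l f) := by ring
      _ = x i * ev x h * jm D x l := h1
      _ = (PowerSeries.X ^ vm x * y) * ev x h * jm D x l := by rw [← hy]
      _ = _ := by ring
  have h3 := mul_left_cancel₀ (pow_ne_zero _ PowerSeries.X_ne_zero) h2
  calc PowerSeries.X ^ s * (y' * g) * ev x (pderiv k l f) =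
      y' * (PowerSeries.X ^ s * g * ev x (pderiv k l f)) := by ring
    _ = y' * (y * (ev x h * jm D x l)) := by rw [h3]
    _ = (y' * y) * (ev x h * jm D x l) := by ring
    _ = _ := by rw [hy', one_mul]

theorem ordGe_mul {s : ℕ} {f h : O k 3} {D : Derivation k K K} {x : Fin 3 → PowerSeries K}
    (hx : ∀ i, PowerSeries.constantCoeff (x i) = 0) (i : Fin 3) (H : OrdGe s f h D x) :
    OrdGe (s + vm x) f (X i * h) D x := by
  obtain ⟨g, hg⟩ := H
  obtain ⟨y, hy⟩ := X_pow_vm_dvd x i
  refine ⟨g * y, fun l => ?_⟩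
  rw [ev_mul hx, ev_X hx, pow_add, mul_assoc (x i), ← hg l]
  conv_rhs => rw [hy]
  ring

theorem ordGe_add {s : ℕ} {f a b : O k 3} {D : Derivation k K K} {x : Fin 3 → PowerSeries K}
    (hx : ∀ i, PowerSeries.constantCoeff (x i) = 0) (ha : OrdGe s f a D x)
    (hb : OrdGe s f b D x) : OrdGe s f (a + b) D x := by
  obtain ⟨g, hg⟩ := ha
  obtain ⟨g', hg'⟩ := hb
  refine ⟨g + g', fun i => ?_⟩
  rw [ev_add hx, add_mul, ← hg i, ← hg' i]; ring

theorem ordGe_sub {s : ℕ} {f a b : O k 3} {D : Derivation k K K} {x : Fin 3 → PowerSeries K}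
    (hx : ∀ i, PowerSeries.constantCoeff (x i) = 0) (ha : OrdGe s f a D x)
    (hb : OrdGe s f b D x) : OrdGe s f (a - b) D x := by
  obtain ⟨g, hg⟩ := ha
  obtain ⟨g', hg'⟩ := hb
  refine ⟨g - g', fun i => ?_⟩
  rw [ev_sub hx, sub_mul, ← hg i, ← hg' i]; ring

/-- The chains. -/
theorem chain (p : ℕ) [Fact p.Prime] {d : ℕ} {f : O k 3} (hf : R3 d f) (j N : ℕ)
    (h : Fin (N + 1) → O k 3) (h0 : X 2 * h 0 ∈ IS p f (j + p))
    (hi : ∀ i : Fin N, X 2 * h i.succ - X 1 * h i.castSucc ∈ IS p f (j + p))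
    (hN : X 1 * h (Fin.last N) ∈ IS p f (j + p)) (i : Fin (N + 1)) : h i ∈ IS p f j := by
  intro K _ _ D x hD hx hx0 hxf
  have hp : 0 < p := (Fact.out : p.Prime).pos
  have hfl : (j + p) * vm x / p = j * vm x / p + vm x := by
    rw [add_mul, Nat.add_mul_div_left _ _ hp]
  have k0 := h0 K D x hD hx hx0 hxf
  have kN := hN K D x hD hx hx0 hxf
  have ki := fun i => hi i K D x hD hx hx0 hxf
  rw [hfl] at k0 kN
  simp only [hfl] at ki
  rcases coeff_ne hf hx hx0 hxf with hc | hc
  · -- downwards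
    refine Fin.reverseInduction ?_ (fun i ih => ?_) i
    · exact ordGe_div hx 1 hc kN
    · refine ordGe_div hx 1 hc ?_
      have e : X 1 * h i.castSucc = X 2 * h i.succ - (X 2 * h i.succ - X 1 * h i.castSucc) := by
        ring
      rw [e]
      exact ordGe_sub hx (ordGe_mul hx 2 ih) (ki i)
  · -- upwards
    refine Fin.induction ?_ (fun i ih => ?_) i
    · exact ordGe_div hx 2 hc k0
    · refine ordGe_div hx 2 hc ?_
      have e : X 2 * h i.succ = (X 2 * h i.succ - X 1 * h i.castSucc) + X 1 * h i.castSucc := by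
        ring
      rw [e]
      exact ordGe_add hx (ki i) (ordGe_mul hx 1 ih)

end Pool.Agent.DU5.RES
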