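import Pool.Agent.Lib.MP_524519_ag.DU5.RES.Pen
import Pool.Agent.Lib.MP_524519_ag.DU5.RES.Cha

/-! # RES: restriction to the generic plane of the pencil -/

set_option autoImplicit false
set_option linter.unusedSectionVars false

namespace Pool.Agent.DU5.RES

open MvPowerSeries

section

variable {k : Type} [Field k]

theorem ordGe_mono {A : Type} [CommRing A] [Algebra k A] {r s : ℕ} (hrs : r ≤ s)
    {f h : O k 3} {D : Derivation k A A} {x : Fin 3 → PowerSeries A} (H : OrdGe s f h D x) :
    OrdGe r f h D x := by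
  obtain ⟨g, hg⟩ := H
  refine ⟨PowerSeries.X ^ (s - r) * g, fun i => ?_⟩
  rw [← hg i, ← mul_assoc (PowerSeries.X ^ r), ← pow_add, Nat.add_sub_cancel' hrs]

theorem IS_anti (p : ℕ) (f : O k 3) {i j : ℕ} (h : i ≤ j) : IS p f j ≤ IS p f i := by
  intro g hg K _ _ D x hD hx hx0 hf
  exact ordGe_mono (Nat.div_le_div_right (Nat.mul_le_mul_right _ h)) (hg K D x hD hx hx0 hf)

/-- `lam` is transcendental over `k`. -/
theorem transc [IsAlgClosed k] {F : Type} [Field F] [Algebra k F] (D : Derivation k F F) (lam : F)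
    (h : D lam = 1) : Transcendental k lam := by
  intro halg
  have hint : IsIntegral k lam := halg.isIntegral
  have h1 : (minpoly k lam).degree = 1 :=
    IsAlgClosed.degree_eq_one_of_irreducible k (minpoly.irreducible hint)
  obtain ⟨c, hc⟩ := minpoly.mem_range_of_degree_eq_one k lam h1
  rw [← hc, Derivation.map_algebraMap] at h
  exact zero_ne_one h

/-- Elements of the maximal ideal are nilpotent modulo an ideal of finite colength. -/
theorem exists_pow_mem {n : ℕ} (I : Ideal (O k n)) [FiniteDimensional k (O k n ⧸ I)]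
    (r : O k n) (hr : constantCoeff r = 0) : ∃ N, r ^ N ∈ I := by
  have : IsArtinianRing (O k n ⧸ I) := IsArtinianRing.of_finite k (O k n ⧸ I)
  obtain ⟨N, hN⟩ := IsArtinianRing.isNilpotent_jacobson_bot (R := O k n ⧸ I)
  have h1 : Ideal.Quotient.mk I r ∈ Ideal.jacobson (⊥ : Ideal (O k n ⧸ I)) := by
    rw [Ideal.mem_jacobson_bot]
    intro y
    obtain ⟨y, rfl⟩ := Ideal.Quotient.mk_surjective y
    rw [← map_mul, ← map_one (Ideal.Quotient.mk I), ← map_add]
    refine IsUnit.map _ ?_
    rw [isUnit_iff_constantCoeff]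
    simp [hr]
  have h2 := Ideal.pow_mem_pow h1 N
  rw [hN] at h2
  refine ⟨N, ?_⟩
  rw [← Ideal.Quotient.eq_zero_iff_mem, map_pow]
  exact h2

/-- Power series in two variables without monomials `x^a y^b`, `a, b < n`. -/
theorem mem_of_coeff {F : Type} [Field F] (n : ℕ) (g : PC.R2 F)
    (hg : ∀ e : Fin 2 →₀ ℕ, e 0 < n → e 1 < n → coeff e g = 0) :
    g ∈ Ideal.span {(X 0 : PC.R2 F) ^ n, (X 1 : PC.R2 F) ^ n} := by
  classical
  let g1 : PC.R2 F := fun e => if e 0 < n then 0 else coeff e g
  let g2 : PC.R2 F := fun e => if e 0 < n then coeff e g else 0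
  have c1 : ∀ e, coeff e g1 = if e 0 < n then 0 else coeff e g := fun e => rfl
  have c2 : ∀ e, coeff e g2 = if e 0 < n then coeff e g else 0 := fun e => rfl
  have hsum : g = g1 + g2 := by
    ext e
    rw [map_add, c1, c2]
    split_ifs <;> simp
  rw [hsum]
  refine Ideal.add_mem _ ?_ ?_
  · obtain ⟨q, hq⟩ : (X 0 : PC.R2 F) ^ n ∣ g1 := by
      rw [X_pow_dvd_iff]
      intro e he
      rw [c1, if_pos he]
    rw [hq]
    exact Ideal.mul_mem_right _ _ (Ideal.subset_span (by simp))
  · obtain ⟨q, hq⟩ : (X 1 : PC.R2 F) ^ n ∣ g2 := by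
      rw [X_pow_dvd_iff]
      intro e he
      rw [c2]
      split_ifs with h
      · exact hg e h he
      · rfl
    rw [hq]
    exact Ideal.mul_mem_right _ _ (Ideal.subset_span (by simp))

end

section

variable {k F : Type} [Field k] [Field F] [Algebra k F]

theorem rs_hs (lam : F) : HasSubst (![(X 1 : PC.R2 F), X 0, C lam * X 0]) := by
  refine hasSubst_of_constantCoeff_zero fun s => ?_
  fin_cases s <;> simp

/-- The restriction as a homomorphism. -/
noncomputable def rsA (k : Type) [Field k] [Algebra k F] (lam : F) : O k 3 →ₐ[k] PC.R2 F :=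
  MvPowerSeries.substAlgHom (R := k) (rs_hs lam)

theorem rsA_apply (lam : F) (h : O k 3) : rsA k lam h = rs lam h := by
  unfold rsA rs; rw [coe_substAlgHom]

theorem rsA_X0 (lam : F) : rsA k lam (X 0) = X 1 := by
  rw [rsA_apply]; unfold rs; rw [subst_X (rs_hs lam)]; rfl

theorem rsA_X1 (lam : F) : rsA k lam (X 1) = X 0 := by
  rw [rsA_apply]; unfold rs; rw [subst_X (rs_hs lam)]; rfl

theorem rsA_X2 (lam : F) : rsA k lam (X 2) = C lam * X 0 := by
  rw [rsA_apply]; unfold rs; rw [subst_X (rs_hs lam)]; rfl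

/-- The map `V → W`. -/
noncomputable def phi (lam : F) (I : Ideal (O k 3)) :
    (O k 3 ⧸ I) →ₐ[k] (PC.R2 F ⧸ Ideal.span (rs lam '' (I : Set (O k 3)))) :=
  Ideal.Quotient.liftₐ I ((Ideal.Quotient.mkₐ k (Ideal.span (rs lam '' (I : Set (O k 3))))).comp
    (rsA k lam)) (fun a ha => by
      rw [AlgHom.comp_apply, Ideal.Quotient.mkₐ_eq_mk, Ideal.Quotient.eq_zero_iff_mem, rsA_apply]
      exact Ideal.subset_span ⟨a, ha, rfl⟩)

theorem phi_mk (lam : F) (I : Ideal (O k 3)) (h : O k 3) :
    phi lam I (Ideal.Quotient.mk I h) =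
      Ideal.Quotient.mk (Ideal.span (rs lam '' (I : Set (O k 3)))) (rsA k lam h) := rfl

theorem span_phi (lam : F) (I : Ideal (O k 3)) [FiniteDimensional k (O k 3 ⧸ I)] :
    Submodule.span F (Set.range (phi lam I).toLinearMap) = ⊤ := by
  classical
  obtain ⟨N0, h0⟩ := exists_pow_mem I (X 0) (by simp)
  obtain ⟨N1, h1⟩ := exists_pow_mem I (X 1) (by simp)
  set n := max N0 N1
  have h0' : (X 0 : O k 3) ^ n ∈ I :=
    Ideal.pow_mem_of_pow_mem I h0 (le_max_left _ _)
  have h1' : (X 1 : O k 3) ^ n ∈ I :=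
    Ideal.pow_mem_of_pow_mem I h1 (le_max_right _ _)
  set I' := Ideal.span (rs lam '' (I : Set (O k 3))) with hI'
  have hle : Ideal.span {(X 0 : PC.R2 F) ^ n, (X 1 : PC.R2 F) ^ n} ≤ I' := by
    rw [Ideal.span_le]
    rintro _ (rfl | rfl)
    · refine Ideal.subset_span ⟨(X 1) ^ n, h1', ?_⟩
      rw [← rsA_apply, map_pow, rsA_X1]
    · refine Ideal.subset_span ⟨(X 0) ^ n, h0', ?_⟩
      rw [← rsA_apply, map_pow, rsA_X0]
  rw [eq_top_iff]
  rintro w -
  obtain ⟨g, rfl⟩ := Ideal.Quotient.mk_surjective w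
  let c : Fin n → Fin n → F := fun a b =>
    coeff (Finsupp.single 0 (a : ℕ) + Finsupp.single 1 (b : ℕ)) g
  let g0 : PC.R2 F := ∑ a : Fin n, ∑ b : Fin n, c a b • ((X 0) ^ (a : ℕ) * (X 1) ^ (b : ℕ))
  have hmem : g - g0 ∈ I' := by
    refine hle (mem_of_coeff n _ fun e he0 he1 => ?_)
    have he : e = Finsupp.single 0 (e 0) + Finsupp.single 1 (e 1) := by
      ext i; fin_cases i <;> simp
    have hmon : ∀ a b : ℕ, (X 0 : PC.R2 F) ^ a * (X 1) ^ b =
        monomial (Finsupp.single 0 a + Finsupp.single 1 b) 1 := by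
      intro a b
      rw [X_pow_eq, X_pow_eq, monomial_mul_monomial, one_mul]
    have hco : coeff e g0 = c ⟨e 0, he0⟩ ⟨e 1, he1⟩ := by
      simp only [g0, map_sum, hmon]
      rw [Finset.sum_eq_single ⟨e 0, he0⟩, Finset.sum_eq_single ⟨e 1, he1⟩]
      · rw [LinearMap.map_smul_of_tower, coeff_monomial, if_pos he, smul_eq_mul, mul_one]
      · intro b _ hb
        rw [LinearMap.map_smul_of_tower, coeff_monomial, if_neg, smul_zero]
        intro h
        apply hb
        have := DFunLike.congr_fun h 1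
        simp at this
        exact Fin.ext this.symm
      · simp
      · intro a _ ha
        refine Finset.sum_eq_zero fun b _ => ?_
        rw [LinearMap.map_smul_of_tower, coeff_monomial, if_neg, smul_zero]
        intro h
        apply ha
        have := DFunLike.congr_fun h 0
        simp at this
        exact Fin.ext this.symm
      · simp
    rw [map_sub, hco]
    simp only [c]
    rw [← he, sub_self]
  have hmk : Ideal.Quotient.mk I' g = Ideal.Quotient.mk I' g0 := by
    rw [← sub_eq_zero, ← map_sub, Ideal.Quotient.eq_zero_iff_mem]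
    exact hmem
  rw [hmk]
  simp only [g0, map_sum]
  refine Submodule.sum_mem _ fun a _ => Submodule.sum_mem _ fun b _ => ?_
  have hsm : Ideal.Quotient.mk I' (c a b • ((X 0 : PC.R2 F) ^ (a : ℕ) * (X 1) ^ (b : ℕ))) =
      c a b • Ideal.Quotient.mk I' ((X 0 : PC.R2 F) ^ (a : ℕ) * (X 1) ^ (b : ℕ)) := rfl
  rw [hsm]
  refine Submodule.smul_mem _ _ (Submodule.subset_span ⟨Ideal.Quotient.mk I
    ((X 1) ^ (a : ℕ) * (X 0) ^ (b : ℕ)), ?_⟩)
  rw [AlgHom.toLinearMap_apply, phi_mk, map_mul, map_pow, map_pow, rsA_X0, rsA_X1]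

/-- The chapter RES. -/
theorem res : RESStatement := by
  intro p _ k _ _ _ F _ _ D lam hpen d f hd hf hfin j
  by_cases htop : len k (IS p f (j + p)) = ⊤
  · rw [htop]; exact le_top
  set I := IS p f (j + p) with hI
  set J := IS p f j with hJ
  have hIJ : I ≤ J := IS_anti p f (Nat.le_add_right j p)
  have hfd : FiniteDimensional k (O k 3 ⧸ I) := by
    have h1 : IsFiniteLength k (O k 3 ⧸ I) := Module.length_ne_top_iff.1 htop
    rw [isFiniteLength_iff_isNoetherian_isArtinian] at h1
    have := h1.1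
    infer_instance
  let A : (O k 3 ⧸ I) →ₗ[k] (O k 3 ⧸ I) := LinearMap.mulLeft k (Ideal.Quotient.mk I (X 1))
  let B : (O k 3 ⧸ I) →ₗ[k] (O k 3 ⧸ I) := LinearMap.mulLeft k (Ideal.Quotient.mk I (X 2))
  let π : (O k 3 ⧸ I) →ₗ[k] (O k 3 ⧸ J) := (Ideal.Quotient.factorₐ k hIJ).toLinearMap
  have hπ : Function.Surjective π := Ideal.Quotient.factor_surjective hIJ
  have hπmk : ∀ h : O k 3, π (Ideal.Quotient.mk I h) = Ideal.Quotient.mk J h := fun h => rfl
  have hfdJ : FiniteDimensional k (O k 3 ⧸ J) := Module.Finite.of_surjective π hπ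
  have key : len F (Ideal.span (rs lam '' (I : Set (O k 3)))) ≤
      Module.finrank k (LinearMap.ker π) := by
    unfold len
    refine pencil A B (LinearMap.ker π) (phi lam I).toLinearMap lam (transc D lam hpen.one) ?_
      (span_phi lam I) ?_
    · intro v
      obtain ⟨h, rfl⟩ := Ideal.Quotient.mk_surjective v
      simp only [A, B, LinearMap.mulLeft_apply, AlgHom.toLinearMap_apply,
        ← map_mul (Ideal.Quotient.mk I), phi_mk]
      have e1 : rsA k lam (X 2 * h) = lam • rsA k lam (X 1 * h) := by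
        rw [map_mul, map_mul, rsA_X1, rsA_X2, mul_assoc, smul_eq_C_mul]
      rw [e1]
      rfl
    · intro N h h0 hi hN i
      choose h' hh' using fun i => Ideal.Quotient.mk_surjective (h i)
      have hchain := chain p hf j N h' (by
        rw [← hI, ← Ideal.Quotient.eq_zero_iff_mem, map_mul, hh']; exact h0) (fun i => by
        rw [← hI, ← Ideal.Quotient.eq_zero_iff_mem, map_sub, map_mul, map_mul, hh', hh']
        exact sub_eq_zero.2 (hi i)) (by
        rw [← hI, ← Ideal.Quotient.eq_zero_iff_mem, map_mul, hh']; exact hN) i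
      rw [LinearMap.mem_ker, ← hh' i, hπmk, Ideal.Quotient.eq_zero_iff_mem]
      exact hchain
  have hrk := LinearMap.finrank_range_add_finrank_ker π
  rw [LinearMap.range_eq_top.2 hπ, finrank_top] at hrk
  have hD : DN lam p f (j + p) ≤ Module.finrank k (LinearMap.ker π) := key
  calc len k J + DN lam p f (j + p) ≤
      len k J + Module.finrank k (LinearMap.ker π) := add_le_add le_rfl hD
    _ = Module.finrank k (O k 3 ⧸ J) + Module.finrank k (LinearMap.ker π) := by
        unfold len; rw [Module.length_eq_finrank]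
    _ = len k I := by
        unfold len; rw [Module.length_eq_finrank, ← hrk]; push_cast; rfl

end

end Pool.Agent.DU5.RES
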