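import Mathlib

/-! # RES: linear algebra of the pencil `B - lam A` -/

set_option autoImplicit false
set_option linter.unusedSectionVars false

namespace Pool.Agent.DU5.RES

open Module

variable {k V : Type} [Field k] [AddCommGroup V] [Module k V]

/-- `h ↦ (B h_0, B h_1 - A h_0, …, B h_N - A h_(N-1), - A h_N)`. -/
def pen (A B : V →ₗ[k] V) (N : ℕ) : (Fin (N + 1) → V) →ₗ[k] (Fin (N + 2) → V) where
  toFun h := Fin.snoc (α := fun _ => V) (fun i => B (h i)) 0 -
    Fin.cons (α := fun _ => V) 0 (fun i => A (h i))
  map_add' g h := by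
    ext i
    simp only [Pi.sub_apply, Pi.add_apply, map_add]
    have h1 : (Fin.snoc (α := fun _ => V) (fun i => B (g i) + B (h i)) 0 : Fin (N + 2) → V) i =
        (Fin.snoc (α := fun _ => V) (fun i => B (g i)) 0 : Fin (N + 2) → V) i +
        (Fin.snoc (α := fun _ => V) (fun i => B (h i)) 0 : Fin (N + 2) → V) i := by
      refine Fin.lastCases ?_ (fun j => ?_) i
      · simp
      · simp
    have h2 : (Fin.cons (α := fun _ => V) 0 (fun i => A (g i) + A (h i)) : Fin (N + 2) → V) i =
        (Fin.cons (α := fun _ => V) 0 (fun i => A (g i)) : Fin (N + 2) → V) i +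
        (Fin.cons (α := fun _ => V) 0 (fun i => A (h i)) : Fin (N + 2) → V) i := by
      refine Fin.cases ?_ (fun j => ?_) i
      · simp
      · simp
    rw [h1, h2]; abel
  map_smul' c h := by
    ext i
    simp only [Pi.sub_apply, Pi.smul_apply, map_smul, RingHom.id_apply]
    have h1 : (Fin.snoc (α := fun _ => V) (fun i => c • B (h i)) 0 : Fin (N + 2) → V) i =
        c • (Fin.snoc (α := fun _ => V) (fun i => B (h i)) 0 : Fin (N + 2) → V) i := by
      refine Fin.lastCases ?_ (fun j => ?_) i
      · simp
      · simp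
    have h2 : (Fin.cons (α := fun _ => V) 0 (fun i => c • A (h i)) : Fin (N + 2) → V) i =
        c • (Fin.cons (α := fun _ => V) 0 (fun i => A (h i)) : Fin (N + 2) → V) i := by
      refine Fin.cases ?_ (fun j => ?_) i
      · simp
      · simp
    rw [h1, h2, smul_sub]

theorem pen_apply (A B : V →ₗ[k] V) (N : ℕ) (h : Fin (N + 1) → V) (i : Fin (N + 2)) :
    pen A B N h i = (Fin.snoc (α := fun _ => V) (fun i => B (h i)) 0 : Fin (N + 2) → V) i -
    (Fin.cons (α := fun _ => V) 0 (fun i => A (h i)) : Fin (N + 2) → V) i := rfl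

/-- The conditions for the kernel: `B h_0 = 0`, `B h_(i+1) = A h_i`, `A h_N = 0`. -/
theorem pen_ker (A B : V →ₗ[k] V) (N : ℕ) (h : Fin (N + 1) → V) (hh : pen A B N h = 0) :
    B (h 0) = 0 ∧ (∀ i : Fin N, B (h i.succ) = A (h i.castSucc)) ∧ A (h (Fin.last N)) = 0 := by
  refine ⟨?_, fun i => ?_, ?_⟩
  · have := congrFun hh 0
    rw [pen_apply] at this
    have e : (0 : Fin (N + 2)) = Fin.castSucc 0 := rfl
    rw [Fin.cons_zero, e, Fin.snoc_castSucc] at this
    simpa using this
  · have := congrFun hh i.succ.castSucc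
    rw [pen_apply, Fin.snoc_castSucc, ← Fin.succ_castSucc, Fin.cons_succ] at this
    exact sub_eq_zero.1 this
  · have := congrFun hh (Fin.last (N + 1))
    rw [pen_apply, Fin.snoc_last, ← Fin.succ_last, Fin.cons_succ] at this
    simpa using this

variable {F W : Type} [Field F] [Algebra k F] [AddCommGroup W] [Module k W] [Module F W]
  [IsScalarTower k F W]

theorem sum_pen (A B : V →ₗ[k] V) (φ : V →ₗ[k] W) (lam : F)
    (hφ : ∀ v, φ (B v) = lam • φ (A v)) (N : ℕ) (h : Fin (N + 1) → V) :
    ∑ a : Fin (N + 2), lam ^ (a : ℕ) • φ (pen A B N h a) = 0 := by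
  simp only [pen_apply, map_sub, smul_sub, Finset.sum_sub_distrib]
  rw [Fin.sum_univ_castSucc, Fin.sum_univ_succ (f := fun a : Fin (N + 2) =>
    lam ^ (a : ℕ) • φ ((Fin.cons (α := fun _ => V) 0 (fun i => A (h i)) : Fin (N + 2) → V) a))]
  simp only [Fin.snoc_castSucc, Fin.snoc_last, Fin.cons_zero, Fin.cons_succ, map_zero, smul_zero,
    add_zero, zero_add, hφ, Fin.val_castSucc, Fin.val_succ, smul_smul, pow_succ]
  exact sub_self _

/-- The main inequality: `r` vectors `φ (v i)` linearly independent over `F`, `r ≤ dim U`. -/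
theorem pencil_card [FiniteDimensional k V] (A B : V →ₗ[k] V) (U : Submodule k V)
    (φ : V →ₗ[k] W) (lam : F) (hlam : Transcendental k lam)
    (hφ : ∀ v, φ (B v) = lam • φ (A v))
    (hch : ∀ (N : ℕ) (h : Fin (N + 1) → V), B (h 0) = 0 →
      (∀ i : Fin N, B (h i.succ) = A (h i.castSucc)) → A (h (Fin.last N)) = 0 → ∀ i, h i ∈ U)
    (r : ℕ) (v : Fin r → V) (hv : LinearIndependent F fun i => φ (v i)) :
    r ≤ finrank k U := by
  classical
  set n := finrank k V with hn
  set u := finrank k U with hu
  -- the map `G`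
  let G : (Fin (n + 2) → Fin r → k) →ₗ[k] (Fin (n + 2) → V) :=
    LinearMap.pi fun a => (Fintype.linearCombination k v).comp (LinearMap.proj a)
  have hG : ∀ c a, G c a = ∑ i, c a i • v i := fun c a => by
    simp [G, Fintype.linearCombination_apply]
  -- independence
  have hsum : ∀ c : Fin (n + 2) → Fin r → k,
      ∑ a : Fin (n + 2), lam ^ (a : ℕ) • φ (G c a) = 0 → c = 0 := by
    intro c hc
    have h1 : ∑ a : Fin (n + 2), lam ^ (a : ℕ) • φ (G c a) =
        ∑ i, (∑ a : Fin (n + 2), lam ^ (a : ℕ) * algebraMap k F (c a i)) • φ (v i) := by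
      simp only [hG, map_sum, map_smul, Finset.smul_sum, Finset.sum_smul]
      rw [Finset.sum_comm]
      refine Finset.sum_congr rfl fun i _ => Finset.sum_congr rfl fun a _ => ?_
      rw [mul_smul, algebraMap_smul]
    rw [h1] at hc
    have h2 := Fintype.linearIndependent_iff.1 hv _ hc
    funext a i
    have h3 := h2 i
    let q : Polynomial k := ∑ a : Fin (n + 2), Polynomial.C (c a i) * Polynomial.X ^ (a : ℕ)
    have h4 : Polynomial.aeval lam q = 0 := by
      simp only [q, map_sum, map_mul, Polynomial.aeval_C, map_pow, Polynomial.aeval_X]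
      rw [← h3]
      exact Finset.sum_congr rfl fun a _ => mul_comm _ _
    have h5 : q = 0 := by
      by_contra hq
      exact hlam ⟨q, hq, h4⟩
    have h6 : q.coeff (a : ℕ) = c a i := by
      simp only [q, Polynomial.finsetSum_coeff, Polynomial.coeff_C_mul, Polynomial.coeff_X_pow]
      rw [Finset.sum_eq_single a]
      · simp
      · intro b _ hb
        rw [if_neg (fun h => hb (Fin.ext h.symm)), mul_zero]
      · simp
    rw [← h6, h5]; simp
  have hGi : Function.Injective G := by
    rw [injective_iff_map_eq_zero]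
    intro c hc
    refine hsum c ?_
    rw [hc]; simp
  have hP : finrank k (LinearMap.range G) = (n + 2) * r := by
    rw [LinearMap.finrank_range_of_inj hGi]
    simp [Module.finrank_pi_fintype]
  -- the kernel of the pencil
  have hK : finrank k (LinearMap.ker (pen A B n)) ≤ (n + 1) * u := by
    have hle : LinearMap.ker (pen A B n) ≤ Submodule.pi Set.univ (fun _ => U) := by
      intro h hh
      obtain ⟨h1, h2, h3⟩ := pen_ker A B n h hh
      rw [Submodule.mem_pi]
      exact fun i _ => hch n h h1 h2 h3 i
    refine (Submodule.finrank_mono hle).trans ?_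
    let e : (Submodule.pi Set.univ (fun _ : Fin (n + 1) => U)) →ₗ[k] (Fin (n + 1) → U) :=
      LinearMap.pi fun i => LinearMap.codRestrict U
        ((LinearMap.proj i).comp (Submodule.subtype _)) (fun x => x.2 i (Set.mem_univ i))
    have he : Function.Injective e := by
      intro x y hxy
      ext i
      have := congrFun hxy i
      exact congrArg Subtype.val this
    refine (LinearMap.finrank_le_finrank_of_injective he).trans ?_
    simp [Module.finrank_pi_fintype, hu]
  have hQ : finrank k (LinearMap.range (pen A B n)) + finrank k (LinearMap.ker (pen A B n)) =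
      (n + 1) * n := by
    rw [LinearMap.finrank_range_add_finrank_ker]
    simp [Module.finrank_pi_fintype, hn]
  have hdis : LinearMap.range G ⊓ LinearMap.range (pen A B n) = ⊥ := by
    rw [eq_bot_iff]
    rintro x ⟨⟨c, hc⟩, ⟨h, hh⟩⟩
    have h1 := sum_pen A B φ lam hφ n h
    rw [hh, ← hc] at h1
    have h2 := hsum c h1
    rw [Submodule.mem_bot, ← hc, h2, map_zero]
  have htot := Submodule.finrank_sup_add_finrank_inf_eq (LinearMap.range G)
    (LinearMap.range (pen A B n))
  rw [hdis, finrank_bot, add_zero, hP] at htot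
  have hle : finrank k ↥(LinearMap.range G ⊔ LinearMap.range (pen A B n)) ≤ (n + 2) * n := by
    refine (Submodule.finrank_le _).trans ?_
    simp [Module.finrank_pi_fintype, hn]
  by_contra hcon
  push Not at hcon
  nlinarith

/-- The dimension of `W` over `F` is at most the dimension of `U` over `k`. -/
theorem pencil [FiniteDimensional k V] (A B : V →ₗ[k] V) (U : Submodule k V)
    (φ : V →ₗ[k] W) (lam : F) (hlam : Transcendental k lam)
    (hφ : ∀ v, φ (B v) = lam • φ (A v)) (hspan : Submodule.span F (Set.range φ) = ⊤)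
    (hch : ∀ (N : ℕ) (h : Fin (N + 1) → V), B (h 0) = 0 →
      (∀ i : Fin N, B (h i.succ) = A (h i.castSucc)) → A (h (Fin.last N)) = 0 → ∀ i, h i ∈ U) :
    Module.length F W ≤ finrank k U := by
  classical
  have hfin : FiniteDimensional F W := by
    have hb := Module.finBasis k V
    refine ⟨⟨(Finset.univ.image fun i => φ (Module.finBasis k V i)), ?_⟩⟩
    rw [eq_top_iff, ← hspan, Submodule.span_le]
    rintro _ ⟨v, rfl⟩
    rw [SetLike.mem_coe, ← (Module.finBasis k V).sum_repr v, map_sum]
    refine Submodule.sum_mem _ fun i _ => ?_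
    rw [map_smul, ← algebraMap_smul F]
    refine Submodule.smul_mem _ _ (Submodule.subset_span ?_)
    simp
  obtain ⟨b, hb, hspan', hli⟩ := exists_linearIndependent F (Set.range φ)
  rw [hspan] at hspan'
  let bas : Basis b F W := Basis.mk hli (by rw [Subtype.range_coe, hspan'])
  have : Finite b := Module.Finite.finite_basis bas
  have : Fintype b := Fintype.ofFinite b
  let e := Fintype.equivFin b
  have hc : Fintype.card b ≤ finrank k U := by
    choose w hw using fun i : b => hb i.2
    refine pencil_card A B U φ lam hlam hφ hch (Fintype.card b) (fun i => w (e.symm i)) ?_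
    have : (fun i => φ (w (e.symm i))) = (fun i : b => (i : W)) ∘ e.symm := by
      funext i; simp [hw]
    rw [this]
    exact hli.comp _ e.symm.injective
  rw [Module.length_eq_finrank, finrank_eq_card_basis bas]
  exact_mod_cast hc

end Pool.Agent.DU5.RES
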